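import Pool.Agent.Helper97.Tate.Goals

/-!
# Project FewPoints, goal TRK: transfer from special points to general points
-/

set_option autoImplicit false

noncomputable section

namespace Pool.Agent.Helper44.Tate.TRK

open MvPolynomial Module Pool.Agent.Helper97.Tate

/-- The monomials of degree `d` in three variables. -/
abbrev Mo (d : ℕ) : Type := ↥(Finset.finsuppAntidiag (Finset.univ : Finset (Fin 3)) d)

theorem mo_degree {d : ℕ} (a : Mo d) : (a : Fin 3 →₀ ℕ).degree = d := by
  have h := (Finset.mem_finsuppAntidiag.mp a.2).1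
  rw [Finsupp.degree_eq_sum]
  exact h

/-- The exponent given by a function with bounded values. -/
def ex {M : ℕ} (e : Fin 3 → Fin M) : Fin 3 →₀ ℕ :=
  Finsupp.equivFunOnFinite.symm fun k ↦ (e k : ℕ)

/-- The translated monomial. -/
def tm {A : Type} [CommRing A] (X' : Fin 3 → A) (a : Fin 3 →₀ ℕ) : MvPolynomial (Fin 3) A :=
  ∏ k, (X k + C (X' k)) ^ a k

theorem tm_map {A B : Type} [CommRing A] [CommRing B] (φ : A →+* B) (X' : Fin 3 → A)
    (a : Fin 3 →₀ ℕ) : MvPolynomial.map φ (tm X' a) = tm (fun k ↦ φ (X' k)) a := by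
  simp [tm, map_prod]

theorem tau_monomial {K : Type} [Field K] (P : Fin 3 → K) (a : Fin 3 →₀ ℕ) :
    tau P (monomial a 1) = tm P a := by
  rw [tau, aeval_monomial, map_one, one_mul, tm, Finsupp.prod_fintype]
  intro i
  rw [pow_zero]

/-- The matrix of the conditions. -/
def mat {A : Type} [CommRing A] {s : ℕ} (d M : ℕ) (m : Fin s → ℕ) (X' : Fin s → Fin 3 → A) :
    Matrix (Fin s × (Fin 3 → Fin M)) (Mo d) A :=
  fun r a ↦ if (ex r.2).degree < m r.1 then coeff (ex r.2) (tm (X' r.1) a) else 0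

theorem mat_map {A B : Type} [CommRing A] [CommRing B] (φ : A →+* B) {s : ℕ} (d M : ℕ)
    (m : Fin s → ℕ) (X' : Fin s → Fin 3 → A) :
    (mat d M m X').map φ = mat d M m (fun i k ↦ φ (X' i k)) := by
  ext r a
  simp only [Matrix.map_apply, mat]
  split_ifs
  · rw [← coeff_map, tm_map]
  · exact map_zero φ

/-- The form with given coefficients. -/
def Phi (K : Type) [Field K] (d : ℕ) : (Mo d → K) →ₗ[K] MvPolynomial (Fin 3) K where
  toFun := fun c ↦ ∑ a : Mo d, c a • monomial (a : Fin 3 →₀ ℕ) (1 : K)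
  map_add' := fun a b ↦ by
    simp [add_smul, Finset.sum_add_distrib]
  map_smul' := fun r a ↦ by
    simp [mul_smul, Finset.smul_sum]

theorem Phi_apply (K : Type) [Field K] (d : ℕ) (c : Mo d → K) :
    Phi K d c = ∑ a : Mo d, c a • monomial (a : Fin 3 →₀ ℕ) (1 : K) := rfl

theorem coeff_Phi (K : Type) [Field K] (d : ℕ) (c : Mo d → K) (a : Mo d) :
    coeff (a : Fin 3 →₀ ℕ) (Phi K d c) = c a := by
  classical
  rw [Phi_apply, coeff_sum, Finset.sum_eq_single a]
  · rw [coeff_smul, coeff_monomial, if_pos rfl, smul_eq_mul, mul_one]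
  · intro b _ hb
    rw [coeff_smul, coeff_monomial, if_neg (fun h ↦ hb (Subtype.ext h)), smul_zero]
  · intro h
    exact absurd (Finset.mem_univ a) h

theorem Phi_inj (K : Type) [Field K] (d : ℕ) : Function.Injective (Phi K d) := by
  intro c c' h
  funext a
  rw [← coeff_Phi K d c a, h, coeff_Phi]

theorem Phi_hom (K : Type) [Field K] (d : ℕ) (c : Mo d → K) :
    Phi K d c ∈ homogeneousSubmodule (Fin 3) K d := by
  rw [Phi_apply]
  refine Submodule.sum_mem _ fun a _ ↦ Submodule.smul_mem _ _ ?_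
  rw [mem_homogeneousSubmodule]
  exact isHomogeneous_monomial 1 (mo_degree a)

theorem exists_Phi (K : Type) [Field K] (d : ℕ) (z : MvPolynomial (Fin 3) K)
    (hz : z ∈ homogeneousSubmodule (Fin 3) K d) : ∃ c, Phi K d c = z := by
  classical
  refine ⟨fun a ↦ coeff (a : Fin 3 →₀ ℕ) z, ?_⟩
  ext e
  by_cases he : e.degree = d
  · have hmem : e ∈ Finset.finsuppAntidiag (Finset.univ : Finset (Fin 3)) d := by
      rw [Finset.mem_finsuppAntidiag]
      refine ⟨?_, Finset.subset_univ _⟩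
      rw [← he, Finsupp.degree_eq_sum]
    exact coeff_Phi K d _ ⟨e, hmem⟩
  · have h1 := Phi_hom K d (fun a ↦ coeff (a : Fin 3 →₀ ℕ) z)
    rw [mem_homogeneousSubmodule] at hz h1
    rw [hz.coeff_eq_zero he, h1.coeff_eq_zero he]

theorem mulVec_eq (K : Type) [Field K] {s : ℕ} (d M : ℕ) (m : Fin s → ℕ) (P : Fin s → Fin 3 → K)
    (c : Mo d → K) (r : Fin s × (Fin 3 → Fin M)) :
    (mat d M m P).mulVec c r =
      if (ex r.2).degree < m r.1 then coeff (ex r.2) (tau (P r.1) (Phi K d c)) else 0 := by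
  rw [Matrix.mulVec, dotProduct]
  simp only [mat]
  split_ifs with h
  · rw [Phi_apply, map_sum, coeff_sum]
    refine Finset.sum_congr rfl fun a _ ↦ ?_
    rw [map_smul, coeff_smul, tau_monomial, smul_eq_mul, mul_comm]
  · simp

theorem space_eq (K : Type) [Field K] {s : ℕ} (d M : ℕ) (m : Fin s → ℕ) (hM : ∀ i, m i ≤ M)
    (P : Fin s → Fin 3 → K) :
    (Fm K d ⊓ ⨅ i, Van (P i) (m i) : Submodule K (MvPolynomial (Fin 3) K)) =
      Submodule.map (Phi K d) (LinearMap.ker (mat d M m P).mulVecLin) := by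
  have hF : Fm K (d : ℤ) = homogeneousSubmodule (Fin 3) K d := by
    rw [Fm, if_pos (Int.natCast_nonneg d), Int.toNat_natCast]
  have key : ∀ c : Mo d → K, (mat d M m P).mulVec c = 0 ↔
      ∀ i, Phi K d c ∈ Van (P i) (m i) := by
    intro c
    constructor
    · intro h i e he
      have hk : ∀ k, e k < M := by
        intro k
        have h1 : e k ≤ e.degree := by
          rw [Finsupp.degree_eq_sum]
          exact Finset.single_le_sum (f := fun k ↦ e k) (fun _ _ ↦ Nat.zero_le _)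
            (Finset.mem_univ k)
        have := hM i
        omega
      have hex : ex (fun k ↦ (⟨e k, hk k⟩ : Fin M)) = e := by
        ext k
        rfl
      have h1 := congrFun h (i, fun k ↦ (⟨e k, hk k⟩ : Fin M))
      rw [mulVec_eq] at h1
      simp only [hex] at h1
      rw [if_pos he] at h1
      exact h1
    · intro h
      funext r
      rw [mulVec_eq]
      split_ifs with hr
      · exact h r.1 _ hr
      · rfl
  ext z
  rw [Submodule.mem_inf, Submodule.mem_iInf, hF, Submodule.mem_map]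
  constructor
  · rintro ⟨h1, h2⟩
    obtain ⟨c, rfl⟩ := exists_Phi K d z h1
    refine ⟨c, ?_, rfl⟩
    rw [LinearMap.mem_ker, Matrix.mulVecLin_apply]
    exact (key c).mpr h2
  · rintro ⟨c, h1, rfl⟩
    rw [LinearMap.mem_ker, Matrix.mulVecLin_apply] at h1
    exact ⟨Phi_hom K d c, (key c).mp h1⟩

theorem finrank_space (K : Type) [Field K] {s : ℕ} (d M : ℕ) (m : Fin s → ℕ) (hM : ∀ i, m i ≤ M)
    (P : Fin s → Fin 3 → K) :
    (mat d M m P).rank + finrank K (Fm K d ⊓ ⨅ i, Van (P i) (m i) :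
      Submodule K (MvPolynomial (Fin 3) K)) = Fintype.card (Mo d) := by
  rw [space_eq K d M m hM P,
    ← (Submodule.equivMapOfInjective (Phi K d) (Phi_inj K d) _).finrank_eq, Matrix.rank,
    LinearMap.finrank_range_add_finrank_ker, finrank_fintype_fun_eq_card]

theorem t (hMNR : S_MNR) : S_TRK := by
  intro K _ _ s d N m P hP
  obtain ⟨M, hM⟩ : ∃ M, ∀ i, m i ≤ M :=
    ⟨∑ i, m i, fun i ↦ Finset.single_le_sum (f := m) (fun _ _ ↦ Nat.zero_le _) (Finset.mem_univ i)⟩
  have h1 := finrank_space K d M m hM P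
  obtain ⟨f, g, hfg⟩ := (hMNR K _ _ (mat d M m P) (Fintype.card (Mo d) - N)).mp (by omega)
  let δ : MvPolynomial (Fin s × Fin 3) ℤ :=
    ((mat d M m (fun i k ↦ (X (i, k) : MvPolynomial (Fin s × Fin 3) ℤ))).submatrix f g).det
  have hδ : ∀ (L : Type) [Field L] (Q : Fin s → Fin 3 → L),
      eval₂ (Int.castRingHom L) (fun ij : Fin s × Fin 3 ↦ Q ij.1 ij.2) δ =
        ((mat d M m Q).submatrix f g).det := by
    intro L _ Q
    change eval₂Hom (Int.castRingHom L) (fun ij : Fin s × Fin 3 ↦ Q ij.1 ij.2) δ = _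
    rw [RingHom.map_det]
    congr 1
    have h2 := mat_map (eval₂Hom (Int.castRingHom L) (fun ij : Fin s × Fin 3 ↦ Q ij.1 ij.2)) d M m
      (fun i k ↦ (X (i, k) : MvPolynomial (Fin s × Fin 3) ℤ))
    simp only [eval₂Hom_X'] at h2
    rw [← h2]
    rfl
  have hδ0 : δ ≠ 0 := by
    intro h0
    apply hfg
    rw [← hδ K P, h0, eval₂_zero]
  refine ⟨MvPolynomial.map (Int.castRingHom ℂ) δ, ?_, ?_⟩
  · intro h
    apply hδ0
    apply MvPolynomial.map_injective (Int.castRingHom ℂ) Int.cast_injective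
    rw [h, map_zero]
  · intro Q hQ
    rw [eval_map, hδ ℂ Q] at hQ
    have h2 := (hMNR ℂ _ _ (mat d M m Q) (Fintype.card (Mo d) - N)).mpr ⟨f, g, hQ⟩
    have h3 := finrank_space ℂ d M m hM Q
    omega

end Pool.Agent.Helper44.Tate.TRK
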